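import Pool.Agent.helper67.RG.Defs

/-!
# Project rg (MP_2e0e07_nt): from a subgroup of finite index to the whole group (induction)
-/

set_option autoImplicit false

namespace Pool.Agent.RG

open Matrix Pool.Agent.GO

/-- the matrices of the permutation representation of `Γ` on a finite `Γ`-set -/
def permM {Γ X : Type*} [Group Γ] [MulAction Γ X] [Fintype X] [DecidableEq X] (F : Type*) [Field F] (g : Γ) :
    Matrix X X F := Matrix.of fun x y => if x = g • y then 1 else 0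

theorem IND_mulVec {Γ X F m : Type*} [Group Γ] [MulAction Γ X] [Fintype X] [DecidableEq X] [Field F]
    [Fintype m] (T : Matrix m m F) (g : Γ) (f : m × X → F) (i : m) (x : X) :
    (kroneckerMap (· * ·) T (permM F g : Matrix X X F) *ᵥ f) (i, x) =
      (T *ᵥ fun j => f (j, g⁻¹ • x)) i := by
  simp only [Matrix.mulVec, dotProduct, Fintype.sum_prod_type, kroneckerMap_apply, permM, Matrix.of_apply]
  refine Finset.sum_congr rfl fun j _ => ?_
  rw [Finset.sum_eq_single (g⁻¹ • x)]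
  · rw [if_pos (by rw [smul_inv_smul]), mul_one]
  · intro y _ hy
    rw [if_neg, mul_zero, zero_mul]
    intro h
    apply hy
    rw [h, inv_smul_smul]
  · intro h
    exact absurd (Finset.mem_univ _) h

section

variable {Γ F m d : Type*} [Group Γ] [Field F] [Fintype m] [DecidableEq m] [Fintype d] [DecidableEq d]
  (T : Γ →* Matrix m m F) (ρ : Γ →* Matrix d d F) (U : Subgroup Γ)

/-- the element `t(x)⁻¹ g t(g⁻¹ x)` of `U` -/
theorem IND_mem (g : Γ) (x : Γ ⧸ U) : x.out⁻¹ * (g * (g⁻¹ • x).out) ∈ U := by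
  rw [← QuotientGroup.eq, QuotientGroup.out_eq']
  have h : ((g * (g⁻¹ • x).out : Γ) : Γ ⧸ U) = g • (((g⁻¹ • x).out : Γ) : Γ ⧸ U) := rfl
  rw [h, QuotientGroup.out_eq', smul_inv_smul]

/-- **IND**: a subquotient on a subgroup `U` of finite index gives a subquotient of the tensor product
with the permutation representation on the cosets of `U`. -/
theorem IND [Fintype (Γ ⧸ U)] [DecidableEq (Γ ⧸ U)]
    (h : IsSubquotient (fun u : U => ρ u) (fun u : U => T u)) :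
    IsSubquotient (fun g => ρ g)
      (fun g => kroneckerMap (· * ·) (T g) (permM F g : Matrix (Γ ⧸ U) (Γ ⧸ U) F)) := by
  obtain ⟨Q, hQ, π, hsurj, heq⟩ := h
  obtain ⟨π', hπ'⟩ := LinearMap.exists_extend π
  have hπ : ∀ x (hx : x ∈ Q), π' x = π ⟨x, hx⟩ := fun x hx => by
    rw [← hπ']
    rfl
  -- the component
  let ev : (Γ ⧸ U) → (m × (Γ ⧸ U) → F) →ₗ[F] (m → F) := fun x =>
    (Matrix.mulVecLin (T x.out⁻¹)).comp (LinearMap.funLeft F F fun j => (j, x))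
  have hev : ∀ x f, ev x f = T x.out⁻¹ *ᵥ fun j => f (j, x) := fun x f => rfl
  let Q' : Submodule F (m × (Γ ⧸ U) → F) := ⨅ x, Q.comap (ev x)
  have hQ' : ∀ f, f ∈ Q' ↔ ∀ x, ev x f ∈ Q := by
    intro f
    simp only [Q', Submodule.mem_iInf, Submodule.mem_comap]
  let P : (m × (Γ ⧸ U) → F) →ₗ[F] (d → F) :=
    ∑ x : Γ ⧸ U, (Matrix.mulVecLin (ρ x.out)).comp (π'.comp (ev x))
  have hP : ∀ f, P f = ∑ x : Γ ⧸ U, ρ x.out *ᵥ π' (ev x f) := by
    intro f
    simp only [P, LinearMap.sum_apply, LinearMap.comp_apply, Matrix.mulVecLin_apply]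
  -- the key relation
  have hact : ∀ (g : Γ) (f : m × (Γ ⧸ U) → F) (x : Γ ⧸ U),
      ev x (kroneckerMap (· * ·) (T g) (permM F g : Matrix (Γ ⧸ U) (Γ ⧸ U) F) *ᵥ f) =
        T (x.out⁻¹ * (g * (g⁻¹ • x).out)) *ᵥ ev (g⁻¹ • x) f := by
    intro g f x
    rw [hev, hev, Matrix.mulVec_mulVec, ← map_mul]
    have e1 : (fun j => (kroneckerMap (· * ·) (T g) (permM F g : Matrix (Γ ⧸ U) (Γ ⧸ U) F) *ᵥ f) (j, x)) =
        T g *ᵥ fun j => f (j, g⁻¹ • x) := by
      funext i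
      exact IND_mulVec (T g) g f i x
    rw [e1, Matrix.mulVec_mulVec, ← map_mul]
    congr 2
    group
  have hst : ∀ (g : Γ), ∀ f ∈ Q', kroneckerMap (· * ·) (T g) (permM F g : Matrix (Γ ⧸ U) (Γ ⧸ U) F) *ᵥ f ∈ Q' := by
    intro g f hf
    rw [hQ'] at hf ⊢
    intro x
    rw [hact]
    exact hQ ⟨_, IND_mem U g x⟩ _ (hf _)
  refine ⟨Q', hst, P.comp Q'.subtype, ?_, ?_⟩
  · intro w
    obtain ⟨⟨y, hy⟩, hyw⟩ := hsurj (ρ ((1 : Γ) : Γ ⧸ U).out⁻¹ *ᵥ w)
    let f : m × (Γ ⧸ U) → F := fun p => if p.2 = ((1 : Γ) : Γ ⧸ U) then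
      (T ((1 : Γ) : Γ ⧸ U).out *ᵥ y) p.1 else 0
    have hf1 : ev ((1 : Γ) : Γ ⧸ U) f = y := by
      rw [hev]
      have e : (fun j => f (j, ((1 : Γ) : Γ ⧸ U))) = T ((1 : Γ) : Γ ⧸ U).out *ᵥ y := by
        funext j
        simp only [f, if_true]
      rw [e, Matrix.mulVec_mulVec, ← map_mul, inv_mul_cancel, map_one, Matrix.one_mulVec]
    have hf2 : ∀ x, x ≠ ((1 : Γ) : Γ ⧸ U) → ev x f = 0 := by
      intro x hx
      rw [hev]
      have e : (fun j => f (j, x)) = 0 := by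
        funext j
        simp only [f, if_neg hx]
        rfl
      rw [e, Matrix.mulVec_zero]
    have hfQ : f ∈ Q' := by
      rw [hQ']
      intro x
      by_cases hx : x = ((1 : Γ) : Γ ⧸ U)
      · rw [hx, hf1]
        exact hy
      · rw [hf2 x hx]
        exact Q.zero_mem
    refine ⟨⟨f, hfQ⟩, ?_⟩
    show P f = w
    rw [hP, Finset.sum_eq_single ((1 : Γ) : Γ ⧸ U)]
    · rw [hf1, hπ y hy, hyw, Matrix.mulVec_mulVec, ← map_mul, mul_inv_cancel, map_one,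
        Matrix.one_mulVec]
    · intro x _ hx
      rw [hf2 x hx, map_zero, Matrix.mulVec_zero]
    · intro h
      exact absurd (Finset.mem_univ _) h
  · intro g f
    show P (kroneckerMap (· * ·) (T g) (permM F g : Matrix (Γ ⧸ U) (Γ ⧸ U) F) *ᵥ f.1) = ρ g *ᵥ P f.1
    rw [hP, hP, Matrix.mulVec_sum, ← Equiv.sum_comp (MulAction.toPerm g : Equiv.Perm (Γ ⧸ U))]
    refine Finset.sum_congr rfl fun z _ => ?_
    have hz : g⁻¹ • ((MulAction.toPerm g : Equiv.Perm (Γ ⧸ U)) z) = z := by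
      rw [MulAction.toPerm_apply, inv_smul_smul]
    obtain ⟨x, hx⟩ : ∃ x, x = (MulAction.toPerm g : Equiv.Perm (Γ ⧸ U)) z := ⟨_, rfl⟩
    rw [← hx] at hz ⊢
    have hfz : ev z f.1 ∈ Q := (hQ' f.1).1 f.2 z
    have hu : x.out⁻¹ * (g * z.out) ∈ U := by
      have := IND_mem U g x
      rwa [hz] at this
    rw [hact, hz, hπ _ (hQ ⟨_, hu⟩ _ hfz)]
    have h1 := heq ⟨_, hu⟩ ⟨_, hfz⟩
    have h2 : π ⟨T (x.out⁻¹ * (g * z.out)) *ᵥ ev z f.1, hQ ⟨_, hu⟩ _ hfz⟩ =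
        ρ (x.out⁻¹ * (g * z.out)) *ᵥ π ⟨ev z f.1, hfz⟩ := h1
    rw [h2, hπ _ hfz, Matrix.mulVec_mulVec, Matrix.mulVec_mulVec, ← map_mul, ← map_mul,
      mul_inv_cancel_left]

end

end Pool.Agent.RG
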