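import Pool.Agent.helper10.RG.SpecB

/-!
# Row rgb:GENM (MP_2e0e07_nt)
-/

set_option autoImplicit false

universe u v w

namespace Pool.Agent.RG

open Matrix Polynomial

theorem GENM_eig {F : Type*} [Field F] {a : ℕ} {A : Matrix (Fin a) (Fin a) F} {ν : F}
    (h : ν ∈ A.charpoly.roots) : ∃ x : Fin a → F, x ≠ 0 ∧ A *ᵥ x = ν • x := by
  have h1 : (A.charpoly).IsRoot ν := isRoot_of_mem_roots h
  have h2 : (Matrix.scalar (Fin a) ν - A).det = 0 := by
    rw [← Matrix.eval_charpoly]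
    exact h1
  obtain ⟨x, hx, hx2⟩ := Matrix.exists_mulVec_eq_zero_iff.2 h2
  refine ⟨x, hx, ?_⟩
  rw [Matrix.sub_mulVec, sub_eq_zero] at hx2
  rw [← hx2]
  ext i
  simp [Matrix.scalar_apply, Matrix.mulVec_diagonal]

theorem GENM_kron {F : Type*} [Field F] {a b : ℕ} (A : Matrix (Fin a) (Fin a) F)
    (B : Matrix (Fin b) (Fin b) F) (x : Fin a → F) (y : Fin b → F) :
    kroneckerMap (· * ·) A B *ᵥ (fun p => x p.1 * y p.2) = fun p => (A *ᵥ x) p.1 * (B *ᵥ y) p.2 := by
  ext ⟨i, j⟩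
  simp only [Matrix.mulVec, dotProduct, kroneckerMap_apply, Fintype.sum_prod_type, Finset.sum_mul_sum]
  refine Finset.sum_congr rfl fun k _ => Finset.sum_congr rfl fun l _ => ?_
  ring

theorem GENM_ne {F : Type*} [Field F] {a b : ℕ} {x : Fin a → F} {y : Fin b → F} (hx : x ≠ 0) (hy : y ≠ 0) :
    (fun p : Fin a × Fin b => x p.1 * y p.2) ≠ 0 := by
  obtain ⟨i, hi⟩ := Function.ne_iff.1 hx
  obtain ⟨j, hj⟩ := Function.ne_iff.1 hy
  intro h
  have := congrFun h (i, j)
  simp only [Pi.zero_apply, mul_eq_zero] at this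
  rcases this with h | h
  · exact hi h
  · exact hj h

theorem GENM_det {F : Type*} [Field F] {m : Type*} [Fintype m] [DecidableEq m] {N : Matrix m m F} (hN : N.det ≠ 0)
    {z : m → F} (hz : z ≠ 0) {c : F} (h : N *ᵥ z = c • z) : c ≠ 0 := by
  rintro rfl
  rw [zero_smul] at h
  exact hN (Matrix.exists_mulVec_eq_zero_iff.1 ⟨z, hz, h⟩)

theorem GENM : GENM_stmt.{v} := by
  intro F _ a b A M α β hN
  unfold genN at hN
  have h3 := right_ne_zero_of_mul hN
  have h12 := left_ne_zero_of_mul hN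
  have h1 := left_ne_zero_of_mul h12
  have h2 := right_ne_zero_of_mul h12
  have key1 : ∀ ν ∈ A.charpoly.roots, ∀ μ ∈ M.charpoly.roots,
      (ν - α * μ) * (ν - β * μ) ≠ 0 ∧ (ν * β - α ^ 2 * μ) * (ν * α - β ^ 2 * μ) ≠ 0 := by
    intro ν hν μ hμ
    obtain ⟨x, hx, hx2⟩ := GENM_eig hν
    obtain ⟨y, hy, hy2⟩ := GENM_eig hμ
    have hz := GENM_ne hx hy
    constructor
    · refine GENM_det h1 hz ?_
      unfold gen1
      rw [Matrix.add_mulVec, Matrix.sub_mulVec, Matrix.smul_mulVec, Matrix.smul_mulVec, GENM_kron, GENM_kron, GENM_kron,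
        ← Matrix.mulVec_mulVec, ← Matrix.mulVec_mulVec, hx2, hy2, Matrix.mulVec_smul, Matrix.mulVec_smul, hx2, hy2,
        Matrix.one_mulVec, Matrix.one_mulVec]
      ext p
      simp only [Pi.add_apply, Pi.sub_apply, Pi.smul_apply, smul_eq_mul]
      ring
    · refine GENM_det h2 hz ?_
      unfold gen2
      rw [Matrix.add_mulVec, Matrix.sub_mulVec, Matrix.smul_mulVec, Matrix.smul_mulVec, Matrix.smul_mulVec, GENM_kron,
        GENM_kron, GENM_kron,
        ← Matrix.mulVec_mulVec, ← Matrix.mulVec_mulVec, hx2, hy2, Matrix.mulVec_smul, Matrix.mulVec_smul, hx2, hy2,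
        Matrix.one_mulVec, Matrix.one_mulVec]
      ext p
      simp only [Pi.add_apply, Pi.sub_apply, Pi.smul_apply, smul_eq_mul]
      ring
  refine ⟨fun ν hν μ hμ => ?_, fun ν hν μ hμ => ?_, fun ν hν ν' hν' => ?_⟩
  · have h := (key1 ν hν μ hμ).1
    exact ⟨sub_ne_zero.1 (left_ne_zero_of_mul h), sub_ne_zero.1 (right_ne_zero_of_mul h)⟩
  · have h := (key1 ν hν μ hμ).2
    exact ⟨sub_ne_zero.1 (left_ne_zero_of_mul h), sub_ne_zero.1 (right_ne_zero_of_mul h)⟩
  · obtain ⟨x, hx, hx2⟩ := GENM_eig hν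
    obtain ⟨y, hy, hy2⟩ := GENM_eig hν'
    have hz := GENM_ne hx hy
    have h : (ν * β - ν' * α) * (ν * α - ν' * β) ≠ 0 := by
      have hS : (kroneckerMap (· * ·) A (1 : Matrix (Fin a) (Fin a) F) +
          kroneckerMap (· * ·) (1 : Matrix (Fin a) (Fin a) F) A) *ᵥ (fun p => x p.1 * y p.2) =
          (ν + ν') • fun p : Fin a × Fin a => x p.1 * y p.2 := by
        rw [Matrix.add_mulVec, GENM_kron, GENM_kron, Matrix.one_mulVec, Matrix.one_mulVec, hx2, hy2]
        ext p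
        simp only [Pi.add_apply, Pi.smul_apply, smul_eq_mul]
        ring
      refine GENM_det h3 hz ?_
      unfold gen3
      rw [Matrix.sub_mulVec, Matrix.smul_mulVec, Matrix.smul_mulVec, GENM_kron, ← Matrix.mulVec_mulVec, hS,
        Matrix.mulVec_smul, hS, hx2, hy2]
      ext p
      simp only [Pi.sub_apply, Pi.smul_apply, smul_eq_mul]
      ring
    exact sub_ne_zero.1 (left_ne_zero_of_mul h)

end Pool.Agent.RG
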