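import Pool.Agent.helper10.RG.KEY

/-!
# Row rgb:INT (MP_2e0e07_nt)
-/

set_option autoImplicit false

universe u v w

namespace Pool.Agent.RG

open Matrix Polynomial

theorem INT_sum {F : Type*} [Field F] {K : Subfield F} (φ : K →+* ℂ) (M : Multiset F)
    (h : ∀ μ ∈ M, ∃ hμ : μ ∈ K, ‖φ ⟨μ, hμ⟩‖ ≤ 1) :
    ∃ hs : M.sum ∈ K, ‖φ ⟨M.sum, hs⟩‖ ≤ M.card := by
  induction M using Multiset.induction_on with
  | empty =>
    refine ⟨by simp, ?_⟩
    have : (⟨(0 : Multiset F).sum, by simp⟩ : K) = 0 := Subtype.ext (by simp)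
    rw [this, map_zero, norm_zero]
    simp
  | cons a M ih =>
    obtain ⟨hs, hn⟩ := ih fun μ hμ => h μ (Multiset.mem_cons_of_mem hμ)
    obtain ⟨ha, hna⟩ := h a (Multiset.mem_cons_self a M)
    have hs' : (a ::ₘ M).sum ∈ K := by
      rw [Multiset.sum_cons]
      exact K.add_mem ha hs
    refine ⟨hs', ?_⟩
    have : (⟨(a ::ₘ M).sum, hs'⟩ : K) = ⟨a, ha⟩ + ⟨M.sum, hs⟩ := Subtype.ext (Multiset.sum_cons a M)
    rw [this, map_add, Multiset.card_cons]
    refine (norm_add_le _ _).trans ?_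
    push_cast
    linarith

theorem INT_lin {F : Type*} [Field F] (c : F) (M : Multiset F) (h : ∀ μ ∈ M, IsIntegral ℤ (c * μ)) :
    IsIntegral ℤ (c * M.sum) := by
  induction M using Multiset.induction_on with
  | empty =>
    rw [Multiset.sum_zero, mul_zero]
    exact isIntegral_zero
  | cons a M ih =>
    rw [Multiset.sum_cons, mul_add]
    exact (h a (Multiset.mem_cons_self a M)).add (ih fun μ hμ => h μ (Multiset.mem_cons_of_mem hμ))

theorem INT_bound {E F : Type*} [Field E] [NumberField E] [Field F] [IsAlgClosed F] [CharZero F]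
    {ι : E →+* F} {q s w : ℕ} {P Q : E[X]} {α β : F} {M₀ : Multiset F} {t : E} (h : Loc ι q s Q α β)
    (hP : IsWeil q w P) (hw : w ≤ s)
    (hM : ∀ μ ∈ M₀, (P.map ι).IsRoot (α * μ) ∧ (P.map ι).IsRoot (β * μ)) (ht : ι t = M₀.sum)
    (σ : E →+* ℂ) : ‖σ t‖ ≤ M₀.card := by
  obtain ⟨K, φ, j, hj1, hj2, hK⟩ := exists_emb ι σ
  have hαK := hK α (KEY_int h)
  have hβK := hK β (KEY_int (KEY_swap h))
  obtain ⟨hα0, hβ0⟩ := KEY_ne h
  have hq : 0 < q := by have := h.good.1; omega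
  obtain ⟨ε, m, hm, hε, hd, hd'⟩ := KEY_det h
  have hprod : φ ⟨α, hαK⟩ * φ ⟨β, hβK⟩ = σ (Q.coeff 0) := by
    rw [← map_mul, ← hj2, RingHom.comp_apply]
    congr 1
    apply Subtype.ext
    have h5 : ((j (Q.coeff 0) : K) : F) = ι (Q.coeff 0) :=
      congrArg (fun f : E →+* F => f (Q.coeff 0)) hj1
    show α * β = ((j (Q.coeff 0) : K) : F)
    rw [h5, (KEY_split h.split).2]
  have hn : ‖φ ⟨α, hαK⟩‖ * ‖φ ⟨β, hβK⟩‖ = (q : ℝ) ^ s := by
    have h6 := congrArg norm hprod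
    rw [norm_mul, hd, map_mul, norm_mul, KEY_unit_norm hm hε σ, map_pow, map_natCast, one_mul,
      norm_pow] at h6
    rw [h6]
    simp
  obtain ⟨hs, hn2⟩ := INT_sum φ M₀ fun μ hμ => by
    obtain ⟨h1, h2⟩ := hM μ hμ
    have hαμ := hK _ (hP.root_int h1)
    have hβμ := hK _ (hP.root_int h2)
    have hμK : μ ∈ K := by
      have : μ = (α * μ) / α := by field_simp
      rw [this]
      exact K.div_mem hαμ hαK
    refine ⟨hμK, ?_⟩
    have n1 := ORD_norm ι hP h1 φ hK hαμ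
    have n2 := ORD_norm ι hP h2 φ hK hβμ
    have e1 : (⟨α * μ, hαμ⟩ : K) = ⟨α, hαK⟩ * ⟨μ, hμK⟩ := rfl
    have e2 : (⟨β * μ, hβμ⟩ : K) = ⟨β, hβK⟩ * ⟨μ, hμK⟩ := rfl
    rw [e1, map_mul, norm_mul] at n1
    rw [e2, map_mul, norm_mul] at n2
    have e3 : ((q : ℝ) ^ s) ^ 2 * ‖φ ⟨μ, hμK⟩‖ ^ 4 = ((q : ℝ) ^ w) ^ 2 := by
      rw [← hn]
      calc (‖φ ⟨α, hαK⟩‖ * ‖φ ⟨β, hβK⟩‖) ^ 2 * ‖φ ⟨μ, hμK⟩‖ ^ 4 =
          (‖φ ⟨α, hαK⟩‖ * ‖φ ⟨μ, hμK⟩‖) ^ 2 * (‖φ ⟨β, hβK⟩‖ * ‖φ ⟨μ, hμK⟩‖) ^ 2 := by ring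
        _ = _ := by rw [n1, n2]; ring
    have hle : (q : ℝ) ^ w ≤ (q : ℝ) ^ s :=
      pow_le_pow_right₀ (by exact_mod_cast hq) hw
    have hpos : (0 : ℝ) < (q : ℝ) ^ s := by positivity
    by_contra hcon
    push Not at hcon
    have h4 : 1 < ‖φ ⟨μ, hμK⟩‖ ^ 4 := one_lt_pow₀ hcon (by norm_num)
    have h5 : ((q : ℝ) ^ w) ^ 2 ≤ ((q : ℝ) ^ s) ^ 2 := pow_le_pow_left₀ (by positivity) hle 2
    have h6 : (0 : ℝ) < ((q : ℝ) ^ s) ^ 2 := by positivity
    nlinarith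
  have e : σ t = φ ⟨M₀.sum, hs⟩ := by
    rw [← hj2, RingHom.comp_apply]
    congr 1
    apply Subtype.ext
    have h5 : ((j t : K) : F) = ι t := congrArg (fun f : E →+* F => f t) hj1
    show ((j t : K) : F) = M₀.sum
    rw [h5, ht]
  rw [e]
  exact hn2

theorem INT_int {E F : Type*} [Field E] [NumberField E] [Field F] [IsAlgClosed F] [CharZero F]
    {ι : E →+* F} {q s w : ℕ} {P Q : E[X]} {α β : F} {M₀ : Multiset F} {t : E} (h : Loc ι q s Q α β)
    (hP : IsWeil q w P)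
    (hM : ∀ μ ∈ M₀, (P.map ι).IsRoot (α * μ) ∧ (P.map ι).IsRoot (β * μ)) (ht : ι t = M₀.sum) :
    IsIntegral ℤ t := by
  have hdown : ∀ x : E, IsIntegral ℤ (ι x) → IsIntegral ℤ x := fun x hx =>
    (isIntegral_algHom_iff ι.toIntAlgHom ι.injective (x := x)).1 hx
  have hup : ∀ x : E, IsIntegral ℤ x → IsIntegral ℤ (ι x) := fun x hx => hx.map ι.toIntAlgHom
  obtain ⟨ε, m, hm, hε, hd, hd'⟩ := KEY_det h
  obtain ⟨hs1, hs0⟩ := KEY_split h.split
  have hε0 : ι ε ≠ 0 := by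
    intro h0
    have : (ι ε) ^ m = 1 := by rw [← map_pow, hε, map_one]
    rw [h0, zero_pow hm.ne'] at this
    exact zero_ne_one this
  have hq0 : (q : F) ≠ 0 := Nat.cast_ne_zero.2 (by have := h.good.1; omega)
  have hsq : ∀ μ ∈ M₀, IsIntegral ℤ ((q : F) ^ s * μ ^ 2) := by
    intro μ hμ
    have e : (q : F) ^ s * μ ^ 2 = (ι ε)⁻¹ * ((α * μ) * (β * μ)) := by
      have : (α * μ) * (β * μ) = ι ε * ((q : F) ^ s * μ ^ 2) := by
        calc (α * μ) * (β * μ) = (α * β) * μ ^ 2 := by ring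
          _ = _ := by rw [hd']; ring
      rw [this, inv_mul_cancel_left₀ hε0]
    rw [e]
    exact (KEY_unit_inv hm hε).mul ((hP.root_int (hM μ hμ).1).mul (hP.root_int (hM μ hμ).2))
  rcases h.good.2.2 with ⟨x, y, hx, hy, hxy⟩ | ⟨hs, hun⟩
  · -- ordinary
    refine hdown t ?_
    rw [ht, ← one_mul M₀.sum]
    refine INT_lin 1 M₀ fun μ hμ => ?_
    rw [one_mul]
    refine IsIntegral.of_pow (n := 2) (by norm_num) ?_
    have hcμ : IsIntegral ℤ (ι (Q.coeff 1) * μ) := by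
      have e : ι (Q.coeff 1) * μ = -(α * μ + β * μ) := by rw [hs1]; ring
      rw [e]
      exact ((hP.root_int (hM μ hμ).1).add (hP.root_int (hM μ hμ).2)).neg
    have hc := hup _ h.good.2.1.integral
    have hx' := hup x hx
    have hy' := hup y hy
    have hq' : IsIntegral ℤ (q : F) := isIntegral_natCast q
    have e1 : μ ^ 2 = (ι x * ι (Q.coeff 1) + ι y * (q : F)) ^ (s + 1) * μ ^ 2 := by
      have : ι x * ι (Q.coeff 1) + ι y * (q : F) = 1 := by
        rw [← map_one ι, ← hxy, map_add, map_mul, map_mul, map_natCast]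
      rw [this, one_pow, one_mul]
    rw [e1, add_pow, Finset.sum_mul]
    refine IsIntegral.sum _ fun i hi => ?_
    rw [Finset.mem_range] at hi
    rcases Nat.lt_or_ge i 2 with h2 | h2
    · interval_cases i
      · have e : (ι x * ι (Q.coeff 1)) ^ 0 * (ι y * (q : F)) ^ (s + 1 - 0) * ((s + 1).choose 0 : F) * μ ^ 2 =
            (ι y) ^ (s + 1) * (q : F) * ((q : F) ^ s * μ ^ 2) := by
          rw [pow_zero, Nat.sub_zero, Nat.choose_zero_right, mul_pow]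
          push_cast
          ring
        rw [e]
        exact ((hy'.pow _).mul hq').mul (hsq μ hμ)
      · have e : (ι x * ι (Q.coeff 1)) ^ 1 * (ι y * (q : F)) ^ (s + 1 - 1) * ((s + 1).choose 1 : F) * μ ^ 2 =
            ι x * ι (Q.coeff 1) * (ι y) ^ s * ((s + 1).choose 1 : F) * ((q : F) ^ s * μ ^ 2) := by
          rw [pow_one, Nat.add_sub_cancel, mul_pow]
          ring
        rw [e]
        exact (((hx'.mul hc).mul (hy'.pow _)).mul (isIntegral_natCast _)).mul (hsq μ hμ)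
    · have e : (ι x * ι (Q.coeff 1)) ^ i * (ι y * (q : F)) ^ (s + 1 - i) * ((s + 1).choose i : F) * μ ^ 2 =
          (ι x) ^ i * (ι (Q.coeff 1)) ^ (i - 2) * (ι y * (q : F)) ^ (s + 1 - i) * ((s + 1).choose i : F) *
            (ι (Q.coeff 1) * μ) ^ 2 := by
        have e3 : (ι (Q.coeff 1)) ^ i = (ι (Q.coeff 1)) ^ (i - 2) * (ι (Q.coeff 1)) ^ 2 := by
          rw [← pow_add, Nat.sub_add_cancel h2]
        rw [mul_pow, e3]
        ring
      rw [e]
      exact (((((hx'.pow _).mul (hc.pow _)).mul ((hy'.mul hq').pow _)).mul (isIntegral_natCast _))).mul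
        (hcμ.pow 2)
  · -- unramified
    subst hs
    have hpair : ∀ μ ∈ M₀, ∀ μ' ∈ M₀, IsIntegral ℤ ((q : F) * μ' * μ) := by
      intro μ hμ μ' hμ'
      refine IsIntegral.of_pow (n := 2) (by norm_num) ?_
      have e : ((q : F) * μ' * μ) ^ 2 = ((q : F) ^ 1 * μ ^ 2) * ((q : F) ^ 1 * μ' ^ 2) := by ring
      rw [e]
      exact (hsq μ hμ).mul (hsq μ' hμ')
    have h2 : IsIntegral ℤ ((q : F) * M₀.sum * M₀.sum) := by
      refine INT_lin ((q : F) * M₀.sum) M₀ fun μ hμ => ?_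
      have h3 := INT_lin ((q : F) * μ) M₀ fun μ' hμ' => hpair μ' hμ' μ hμ
      have e : (q : F) * M₀.sum * μ = (q : F) * μ * M₀.sum := by ring
      rw [e]
      exact h3
    have h3 : IsIntegral ℤ ((q : E) * t * t) := by
      refine hdown _ ?_
      rw [map_mul, map_mul, map_natCast, ht]
      exact h2
    have hqE : (q : E) ≠ 0 := Nat.cast_ne_zero.2 (by have := h.good.1; omega)
    have h4 : IsIntegral ℤ ((q : E) * t) := by
      refine IsIntegral.of_pow (n := 2) (by norm_num) ?_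
      have e : ((q : E) * t) ^ 2 = (q : E) * ((q : E) * t * t) := by ring
      rw [e]
      exact (isIntegral_natCast q).mul h3
    have h5 := hun.2 ((q : E) * t) h4 (by
      have e : ((q : E) * t) ^ 2 / (q : E) = (q : E) * t * t := by
        field_simp
      rw [e]
      exact h3)
    rwa [mul_div_cancel_left₀ _ hqE] at h5

theorem INT : INT_stmt.{u, v} := by
  intro E _ _ F _ _ _ ι q s w P Q α β M₀ t h hP hw hM ht
  exact ⟨INT_int h hP hM ht, fun σ => INT_bound h hP hw hM ht σ⟩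

end Pool.Agent.RG
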