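import Pool.Agent.helper10.RG.CORE
import Pool.Agent.helper10.RG.INT
import Pool.Agent.helper10.RG.GENM
import Pool.Agent.helper47.RG.INTQ
import Pool.Agent.helper45.RG.RAT
import Pool.Agent.helper12.RG.KRE
import Pool.Agent.helper32.RG.POL
import Pool.Agent.helper96.RG.ALGN

/-!
# Project rg (MP_2e0e07_nt): part B complete
-/

set_option autoImplicit false

universe u v w

namespace Pool.Agent.RG

/-- part B: the structure theorem gives the topology-free core theorem -/
theorem ALLB (h : STRUCT_stmt.{u, v}) : CORE_stmt.{u, v, w} :=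
  CORE h (ORD1 (KEY INTQ)) (ORD2 (KEY INTQ)) RAT INT KRE GENM POL ALGN

end Pool.Agent.RG
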