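import Pool.Agent.helper67.RG.Defs

/-!
# Project rg (MP_2e0e07_nt), part B: the arithmetic part

RULES.  File `Pool/Agent/<seat>/RG/XX.lean`, `import Pool.Agent.helper10.RG.SpecB`, `namespace Pool.Agent.RG`,
`theorem XX (h1 : YY_stmt.{u, v}) ... : XX_stmt.{u, v}` (only the hypotheses named in the lock note),
auxiliary lemmas prefixed `XX_`.  Never change this file.  If a statement looks false tell helper10 at once.

Setting: `E` a number field, `ι : E → F`, `F` algebraically closed of characteristic zero, `Q = X² - a X + d` in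
`E[X]` with roots `α, β` in `F`, `d = ε q ^ s`, `ε` a root of unity; EITHER `a` is prime to `q` (ordinary) OR `s = 1`
and `q ≥ 5` is radical in the integers of `E` (`IsUnr`).  `P` in `E[X]` with all complex roots of absolute value
`q ^ (w / 2)`, `w ≤ s`.
-/

set_option autoImplicit false

universe u v w

namespace Pool.Agent.RG

open Matrix Polynomial Pool.Agent.GO Pool.Agent.AR

/-- the local data: `Q` is good, with roots `α`, `β` in `F`, and `a ≠ 0` -/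
structure Loc {E F : Type*} [Field E] [Field F] (ι : E →+* F) (q s : ℕ) (Q : E[X]) (α β : F) : Prop where
  pos : 1 ≤ s
  good : IsGood q s Q
  split : Q.map ι = (X - C α) * (X - C β)
  ne : Q.coeff 1 ≠ 0

/-- **INTQ** (short).  The elements of `𝓞 E`, if `q` is unramified: `c ^ k / q` integral, `c` integral, `0 < k` imply `c / q` integral
(go up to `k ≤ 2 ^ j`, then down with `IsUnr`, `x = c ^ (2 ^ i)`).  An algebraic integer `c / q` of `E` with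
`‖σ c‖ < q` for all `σ` is `0` (its norm is an integer of absolute value `< 1`; Mathlib `Algebra.norm_eq_prod_embeddings`,
or `NumberField.Embeddings.…`).  `1 / q` is not an algebraic integer for `2 ≤ q` in a field of characteristic zero. -/
def INTQ_stmt : Prop := ∀ (E : Type u) [Field E] [NumberField E] (q : ℕ),
  (IsUnr E q → ∀ (c : E) (k : ℕ), 0 < k → IsIntegral ℤ c → IsIntegral ℤ (c ^ k / (q : E)) →
    IsIntegral ℤ (c / (q : E))) ∧
  (2 ≤ q → ∀ c : E, IsIntegral ℤ (c / (q : E)) → (∀ σ : E →+* ℂ, ‖σ c‖ < q) → c = 0) ∧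
  (2 ≤ q → ¬ IsIntegral ℤ (1 / (q : E)))

/-- **KEY** (medium).  If `α ^ (2m) / q`, `β ^ (2m) / q` are algebraic integers and for every subfield `K` of `F` containing the algebraic
integers (elements integral over `ℤ`) and every `φ : K → ℂ` the absolute values of `α`, `β` agree, then contradiction.
PROOF: `a = α + β` (up to the sign `Q.coeff 1 = - a`), `a ^ (4m) / q = Σ binom α ^ i β ^ (4m - i) / q` is integral (`i ≥ 2m` or `4m - i ≥ 2m`),
in `F`, so in `E`.  Ordinary: `x c + y q = 1`, `c = Q.coeff 1`: `1 / q = (x c + y q) ^ (4m) / q` is integral, against INTQ (3).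
Unramified: INTQ (1) gives `c / q` integral; `σ : E → ℂ` extends to the algebraic closure `K` of `E` in `F`
(`exists_emb` in Pool/Agent/helper10/RG/Arith.lean), `‖φ α‖ = ‖φ β‖`, `‖φ α‖ ‖φ β‖ = ‖σ (ε q)‖ = q`, so `‖σ c‖ ≤ 2 √q < q`, and INTQ (2) gives `c = 0`. -/
def KEY_stmt : Prop := ∀ (E : Type u) [Field E] [NumberField E] (F : Type v) [Field F] [IsAlgClosed F] [CharZero F]
  (ι : E →+* F) (q s : ℕ) (Q : E[X]) (α β : F) (m : ℕ), Loc ι q s Q α β → 0 < m →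
  IsIntegral ℤ (α ^ (2 * m) / (q : F)) → IsIntegral ℤ (β ^ (2 * m) / (q : F)) →
  (∀ (K : Subfield F) (_ : ∀ x : F, IsIntegral ℤ x → x ∈ K) (φ : K →+* ℂ) (hα : α ∈ K) (hβ : β ∈ K),
    ‖φ ⟨α, hα⟩‖ = ‖φ ⟨β, hβ⟩‖) → False

/-- **ORD1** (short, from KEY, `m = 2`).  `α² γ = β² γ'` gives `α⁴ γ = (α β)² γ'`, `α β = ε q ^ s`, and `δ = q ^ w / γ` is integral
(`Weil.dual_int` in Arith.lean): `α⁴ / q = ε² q ^ (2s - w - 1) γ' δ`, the same for `β`; `‖φ γ‖ = ‖φ γ'‖`. -/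
def ORD1_stmt : Prop := ∀ (E : Type u) [Field E] [NumberField E] (F : Type v) [Field F] [IsAlgClosed F] [CharZero F]
  (ι : E →+* F) (q s w : ℕ) (P Q : E[X]) (α β γ γ' : F), Loc ι q s Q α β → IsWeil q w P → w ≤ s →
  (P.map ι).IsRoot γ → (P.map ι).IsRoot γ' → α ^ 2 * γ ≠ β ^ 2 * γ'

/-- **ORD2** (short, from KEY, `m = k`).  `α ^ k = β ^ k` gives `α ^ (2k) = (α β) ^ k = ε ^ k q ^ (s k)`. -/
def ORD2_stmt : Prop := ∀ (E : Type u) [Field E] [NumberField E] (F : Type v) [Field F] [IsAlgClosed F] [CharZero F]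
  (ι : E →+* F) (q s : ℕ) (Q : E[X]) (α β : F), Loc ι q s Q α β → ∀ k : ℕ, 0 < k → α ^ k ≠ β ^ k

/-- **RAT** (medium; Galois theory).  `R` = the roots of `P` in `F` = `ν`'s, `α μ`'s, `β μ`'s (with multiplicities).  CHARACTERISATION: for every
`x` in `F`: `count x M₀ = count (α x) R = count (β x) R` if `α x ∈ R` and `β x ∈ R`, and `x ∉ M₀` otherwise.  (If `α x, β x ∈ R` and
`x ∉ M₀`: `α x = ν` or `β μ`, `β x = ν'` or `α μ'`; `ν, ν'`: `ν β = ν' α`, g3; `ν, α μ'`: `ν β = α² μ'`, g2; `β μ, ν'`: g2;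
`β μ, α μ'`: `α² (β μ') = β² (β μ)`, o1.  If `x ∈ M₀`: `α x ∉ N₀` by g1, `α x = β μ` gives `α² (β x) = β² (α μ)`, o1.)
`K = algebraicClosure E F` is Galois over `E`, contains everything; `τ ∈ Gal(K/E)` preserves `R`, and fixes or exchanges `α, β`, so it
preserves `M₀`, so `M₀.sum` is fixed, so in `E` (`InfiniteGalois.…`, `IsGalois.mem_bot_iff_fixed`). -/
def RAT_stmt : Prop := ∀ (E : Type u) [Field E] [CharZero E] (F : Type v) [Field F] [IsAlgClosed F] [CharZero F]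
  (ι : E →+* F) (P Q : E[X]) (α β : F) (N₀ M₀ : Multiset F), P.Monic → Q.map ι = (X - C α) * (X - C β) →
  α ≠ 0 → β ≠ 0 →
  (P.map ι).roots = N₀ + M₀.map (fun μ => α * μ) + M₀.map (fun μ => β * μ) →
  (∀ γ ∈ (P.map ι).roots, ∀ γ' ∈ (P.map ι).roots, α ^ 2 * γ ≠ β ^ 2 * γ') →
  (∀ ν ∈ N₀, ∀ μ ∈ M₀, ν ≠ α * μ ∧ ν ≠ β * μ) →
  (∀ ν ∈ N₀, ∀ μ ∈ M₀, ν * β ≠ α ^ 2 * μ ∧ ν * α ≠ β ^ 2 * μ) →
  (∀ ν ∈ N₀, ∀ ν' ∈ N₀, ν * β ≠ ν' * α) →
  ∃ t : E, ι t = M₀.sum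

/-- **INT** (medium).  BOUND: `σ` extends to `φ` on a subfield `K` of `F` (Arith.lean), `‖φ (α μ)‖² = ‖φ (β μ)‖² = q ^ w`, `‖φ α‖ ‖φ β‖ = q ^ s`:
`‖φ μ‖⁴ = q ^ (2w - 2s) ≤ 1`.  INTEGRAL, ordinary: `c μ = -(α μ + β μ)`, `c = ι (Q.coeff 1)`, is integral, so is `q ^ s μ² = ε⁻¹ (α μ)(β μ)`;
`μ² = (x c + y q) ^ (s + 1) μ²` is integral, every term `c ^ i q ^ j μ²` is.  Unramified (`s = 1`): `q μ²` is integral, so `(q μ μ')²` is, so `q μ μ'`
is, so `q t² ` is integral; `x = q t` satisfies: `x` integral (`x²` is), `x² / q` integral, so `x / q = t` integral. -/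
def INT_stmt : Prop := ∀ (E : Type u) [Field E] [NumberField E] (F : Type v) [Field F] [IsAlgClosed F] [CharZero F]
  (ι : E →+* F) (q s w : ℕ) (P Q : E[X]) (α β : F) (M₀ : Multiset F) (t : E), Loc ι q s Q α β → IsWeil q w P →
  w ≤ s → (∀ μ ∈ M₀, (P.map ι).IsRoot (α * μ) ∧ (P.map ι).IsRoot (β * μ)) → ι t = M₀.sum →
  IsIntegral ℤ t ∧ ∀ σ : E →+* ℂ, ‖σ t‖ ≤ M₀.card

/-- **KRE** (medium; linear algebra).  Eigenvalues of a Kronecker product with a `2 × 2` matrix.  `R` is conjugate to `!![α, *; 0, β]`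
(also for `α = β`), so `R ⊗ M` is conjugate to a block triangular matrix with blocks `α M`, `β M` (`Matrix.charpoly_fromBlocks_zero₂₁`), and
the roots of `charpoly (α M)` are `α μ` (`α ≠ 0`: `charpoly (α M) = α ^ b charpoly M (X / α)`). -/
def KRE_stmt : Prop := ∀ (F : Type v) [Field F] [IsAlgClosed F] (b : ℕ) (R : Matrix (Fin 2) (Fin 2) F)
  (M : Matrix (Fin b) (Fin b) F) (α β : F), R.charpoly = (X - C α) * (X - C β) → α ≠ 0 → β ≠ 0 →
  (kroneckerMap (· * ·) R M).charpoly.roots =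
    M.charpoly.roots.map (fun μ => α * μ) + M.charpoly.roots.map (fun μ => β * μ)

/-- the first genericity matrix `A² ⊗ 1 - T A ⊗ M + d 1 ⊗ M²` -/
def gen1 {R : Type*} [CommRing R] {a b : ℕ} (A : Matrix (Fin a) (Fin a) R) (M : Matrix (Fin b) (Fin b) R) (T d : R) :
    Matrix (Fin a × Fin b) (Fin a × Fin b) R :=
  kroneckerMap (· * ·) (A * A) 1 - T • kroneckerMap (· * ·) A M + d • kroneckerMap (· * ·) 1 (M * M)

/-- the second genericity matrix `d A² ⊗ 1 - (T³ - 3dT) A ⊗ M + d² 1 ⊗ M²` -/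
def gen2 {R : Type*} [CommRing R] {a b : ℕ} (A : Matrix (Fin a) (Fin a) R) (M : Matrix (Fin b) (Fin b) R) (T d : R) :
    Matrix (Fin a × Fin b) (Fin a × Fin b) R :=
  d • kroneckerMap (· * ·) (A * A) 1 - (T ^ 3 - 3 * d * T) • kroneckerMap (· * ·) A M +
    d ^ 2 • kroneckerMap (· * ·) 1 (M * M)

/-- the third genericity matrix `d (A ⊗ 1 + 1 ⊗ A)² - T² A ⊗ A` -/
def gen3 {R : Type*} [CommRing R] {a : ℕ} (A : Matrix (Fin a) (Fin a) R) (T d : R) :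
    Matrix (Fin a × Fin a) (Fin a × Fin a) R :=
  d • ((kroneckerMap (· * ·) A 1 + kroneckerMap (· * ·) 1 A) * (kroneckerMap (· * ·) A 1 + kroneckerMap (· * ·) 1 A)) -
    T ^ 2 • kroneckerMap (· * ·) A A

/-- the product of the three determinants -/
noncomputable def genN {R : Type*} [CommRing R] {a b : ℕ} (A : Matrix (Fin a) (Fin a) R) (M : Matrix (Fin b) (Fin b) R)
    (T d : R) : R := (gen1 A M T d).det * (gen2 A M T d).det * (gen3 A T d).det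

/-- **GENM** (short).  Kernel vectors: `A x = ν x`, `M y = μ y`, then `gen1 (x ⊗ y) = (ν² - T ν μ + d μ²) x ⊗ y = (ν - α μ)(ν - β μ) x ⊗ y`,
`gen2 (x ⊗ y) = (ν β - α² μ)(ν α - β² μ) x ⊗ y`, `gen3 (x ⊗ x') = (ν β - ν' α)(ν α - ν' β) x ⊗ x'`; nonzero determinants exclude
nonzero kernel vectors (`Matrix.exists_mulVec_eq_zero_iff`). -/
def GENM_stmt : Prop := ∀ (F : Type v) [Field F] (a b : ℕ) (A : Matrix (Fin a) (Fin a) F)
  (M : Matrix (Fin b) (Fin b) F) (α β : F), genN A M (α + β) (α * β) ≠ 0 →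
  (∀ ν ∈ A.charpoly.roots, ∀ μ ∈ M.charpoly.roots, ν ≠ α * μ ∧ ν ≠ β * μ) ∧
  (∀ ν ∈ A.charpoly.roots, ∀ μ ∈ M.charpoly.roots, ν * β ≠ α ^ 2 * μ ∧ ν * α ≠ β ^ 2 * μ) ∧
  (∀ ν ∈ A.charpoly.roots, ∀ ν' ∈ A.charpoly.roots, ν * β ≠ ν' * α)

/-- **POL** (short).  `p = genN` of the generic matrices (`gen`, mapped by `C` into polynomials), `T = X`, `d = C (det)`; determinants commute
with ring homomorphisms.  At `g = 1`: `A = 1`, `M = 1`, `d = 1`, the matrices are `2 - T`, `2 + 3T - T³`, `4 - T²` times the identity, so the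
image of `p` in `F[X]` is nonzero. -/
def POL_stmt : Prop := ∀ (Γ : Type u) [Group Γ] (F : Type v) [Field F] [CharZero F] (a b : ℕ)
  (V0 : Γ →* Matrix (Fin a) (Fin a) F) (M : Γ →* Matrix (Fin b) (Fin b) F) (ρ : Γ →* Matrix (Fin 2) (Fin 2) F),
  ∃ p : (alg (ds (ds V0 M) (detR ρ)))[X], p ≠ 0 ∧ ∀ g : Γ,
    (p.map ((evG (ds (ds V0 M) (detR ρ)) g : _ →ₐ[F] F) : _ →+* F)).eval (ρ g).trace =
      genN (V0 g) (M g) (ρ g).trace (ρ g).det

/-- **ALGN** (short).  `genN` of matrices with coefficients in a subalgebra of functions is in it. -/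
def ALGN_stmt : Prop := ∀ (Γ : Type u) (F : Type v) [Field F] (S : Subalgebra F (Γ → F)) (a b : ℕ)
  (A : Γ → Matrix (Fin a) (Fin a) F) (M : Γ → Matrix (Fin b) (Fin b) F) (T d : Γ → F),
  (∀ i j, (fun g => A g i j) ∈ S) → (∀ i j, (fun g => M g i j) ∈ S) → T ∈ S → d ∈ S →
  (fun g => genN (A g) (M g) (T g) (d g)) ∈ S

/-- **STRUCT** (helper67): the group-theoretic part. -/
def STRUCT_stmt : Prop := ∀ (Γ : Type u) [Group Γ] (F : Type v) [Field F] [IsAlgClosed F] [CharZero F]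
  (r : ℕ) (n : Fin r → ℕ) (V : (i : Fin r) → Γ →* Matrix (Fin (n i)) (Fin (n i)) F)
  (ρ : Γ →* Matrix (Fin 2) (Fin 2) F) (g₀ : Γ) (α β : F),
  SI ρ → (∀ i j, (fun g => ad0 ρ g i j) ∈ alg (dirSum V)) → NoZeroDivisors (alg (ds (dirSum V) ρ)) →
  (∀ i, ∃ N c, IsFlag (V i) N c) →
  (ρ g₀).charpoly = (X - C α) * (X - C β) → (∀ k : ℕ, 0 < k → α ^ k ≠ β ^ k) →
  (∀ i, 2 ≤ n i → ∀ γ γ', (V i g₀).charpoly.IsRoot γ → (V i g₀).charpoly.IsRoot γ' →
    α ^ 2 * γ ≠ β ^ 2 * γ') →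
  ∃ (i : Fin r) (a b : ℕ) (V0 : Γ →* Matrix (Fin a) (Fin a) F) (M : Γ →* Matrix (Fin b) (Fin b) F),
    1 ≤ b ∧ (∀ g, (V i g).charpoly = (V0 g).charpoly * (kroneckerMap (· * ·) (ρ g) (M g)).charpoly) ∧
    (∀ j k, (fun g => V0 g j k) ∈ alg (ds (dirSum V) ρ)) ∧
    (∀ j k, (fun g => M g j k) ∈ alg (ds (dirSum V) ρ)) ∧
    (∀ p : (alg (ds (ds V0 M) (detR ρ)))[X], p ≠ 0 →
      ∃ g, (p.map ((evG (ds (ds V0 M) (detR ρ)) g : _ →ₐ[F] F) : _ →+* F)).eval (ρ g).trace ≠ 0) ∧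
    ((∀ g, (M g).trace = b) → IsSubquotient (fun g => ρ g) (fun g => V i g))

/-- **CORE** (medium; the assembly, from STRUCT, ORD1, ORD2, RAT, INT, KRE, GENM, POL, ALGN).
(1) `tr ρ` is in `A = alg (ds (dirSum V) ρ)` and nonzero (`tr ρ 1 = 2`), so `ZD` gives `g₀ ∈ G` with `tr ρ g₀ ≠ 0`, i.e. `Q.coeff 1 ≠ 0`: `Loc`;
ORD1 and ORD2 give the hypotheses of STRUCT (roots `α, β` of `charpoly (ρ g₀)` exist, `F` is algebraically closed).
(2) STRUCT gives `i, V0, M`; `2 ≤ n i` (degrees); `N = genN (V0 g) (M g) (tr ρ g) (det ρ g)` is in `A` (ALGN; `det ρ` is in `A`) and nonzero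
(POL and the transcendence).  (3) `Fin = {t ∈ E | IsIntegral ℤ t, ‖σ t‖ ≤ b for all σ}` is finite
(`NumberField.Embeddings.finite_of_norm_le`).  For `g ∈ G` with `N g ≠ 0`, `tr ρ g ≠ 0`: `Loc`, RAT (with `N₀ = roots of charpoly (V0 g)`,
`M₀ = roots of charpoly (M g)`, KRE, GENM, ORD1), INT: `tr M g = M₀.sum = ι t`, `t ∈ Fin` (`Matrix.trace_eq_sum_roots_charpoly`).
(4) So `N * tr ρ * ∏_{t ∈ Fin} (tr M - ι t)` is in `A` and vanishes on `G`, so is `0`; `A` has no zero divisors: `tr M = ι t` is constant, `= b`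
(at `g = 1`).  The last clause of STRUCT concludes. -/
def CORE_stmt : Prop := ∀ (Γ : Type u) [Group Γ] (F : Type v) [Field F] [IsAlgClosed F] [CharZero F]
  (E : Type w) [Field E] [NumberField E] (ι : E →+* F)
  (r : ℕ) (n : Fin r → ℕ) (V : (i : Fin r) → Γ →* Matrix (Fin (n i)) (Fin (n i)) F)
  (ρ : Γ →* Matrix (Fin 2) (Fin 2) F) (s : ℕ) (wt : Fin r → ℕ) (G : Set Γ),
  1 ≤ s → (∀ i, 2 ≤ n i → wt i ≤ s) →
  SI ρ → (∀ i j, (fun g => ad0 ρ g i j) ∈ alg (dirSum V)) → NoZeroDivisors (alg (ds (dirSum V) ρ)) →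
  (∀ i, ∃ N c, IsFlag (V i) N c) → ZD (ds (dirSum V) ρ) G →
  (∀ g ∈ G, ∃ (q : ℕ) (P : Fin r → E[X]) (Q : E[X]), IsGood q s Q ∧ (ρ g).charpoly = Q.map ι ∧
    ∀ i, (V i g).charpoly = (P i).map ι ∧ (2 ≤ n i → IsWeil q (wt i) (P i))) →
  ∃ i, IsSubquotient (fun g => ρ g) (fun g => V i g)

end Pool.Agent.RG
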