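import Pool.Agent.helper10.RG.SpecB

/-!
# MP_2e0e07_nt, project rg: the arithmetic part, roots of Weil polynomials
-/

set_option autoImplicit false

namespace Pool.Agent.RG

open Polynomial NumberField

section emb

variable {E F : Type*} [Field E] [Field F]

/-- extension of complex embeddings -/
theorem exists_emb (ι : E →+* F) (σ : E →+* ℂ) :
    ∃ (K : Subfield F) (φ : K →+* ℂ) (j : E →+* K), K.subtype.comp j = ι ∧ φ.comp j = σ ∧
      ∀ x : F, IsIntegral ℤ x → x ∈ K := by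
  let := ι.toAlgebra
  let : Algebra E ℂ := σ.toAlgebra
  let φ : algebraicClosure E F →ₐ[E] ℂ := IsAlgClosed.lift
  refine ⟨(algebraicClosure E F).toSubfield, (φ : algebraicClosure E F →+* ℂ),
    algebraMap E (algebraicClosure E F), ?_, ?_, ?_⟩
  · ext x; rfl
  · ext x
    exact φ.commutes x
  · intro x hx
    have h1 : IsIntegral E x := hx.tower_top
    exact (mem_algebraicClosure_iff).2 h1.isAlgebraic

theorem root_iff {K : Subfield F} {φ : K →+* ℂ} {j : E →+* K} {ι : E →+* F} {σ : E →+* ℂ}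
    (h1 : K.subtype.comp j = ι) (h2 : φ.comp j = σ) (P : E[X]) (x : K) :
    (P.map σ).IsRoot (φ x) ↔ (P.map ι).IsRoot (x : F) := by
  rw [IsRoot.def, IsRoot.def, eval_map, eval_map, ← h1, ← h2]
  have e1 := Polynomial.hom_eval₂ P j φ x
  have e2 := Polynomial.hom_eval₂ P j K.subtype x
  rw [← e1]
  have e3 : (eval₂ (K.subtype.comp j) (x : F) P) = K.subtype (eval₂ j x P) := e2.symm
  rw [e3, map_eq_zero, map_eq_zero]

theorem int_of_coeff {P : F[X]} (hP : P.Monic) (hc : ∀ i, IsIntegral ℤ (P.coeff i)) {x : F}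
    (hx : P.IsRoot x) : IsIntegral ℤ x := by
  have h1 : IsIntegral (integralClosure ℤ F) x := by
    have hsub : (↑P.coeffs : Set F) ⊆ (integralClosure ℤ F).toSubring := by
      intro y hy
      obtain ⟨n, -, rfl⟩ := Polynomial.mem_coeffs_iff.1 hy
      exact hc n
    refine ⟨P.toSubring _ hsub, (Polynomial.monic_toSubring P _ hsub).2 hP, ?_⟩
    have h2 : (P.toSubring _ hsub).map (algebraMap (integralClosure ℤ F) F) = P := by
      ext n
      rw [Polynomial.coeff_map]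
      exact Polynomial.coeff_toSubring P _ hsub
    rw [← Polynomial.eval_map, h2]
    exact hx
  exact isIntegral_trans x h1

theorem IsWeil.root_int {ι : E →+* F} {q w : ℕ} {P : E[X]} (hP : IsWeil q w P) {γ : F}
    (hγ : (P.map ι).IsRoot γ) : IsIntegral ℤ γ := by
  refine int_of_coeff (hP.monic.map ι) (fun i => ?_) hγ
  rw [coeff_map]
  exact (hP.integral i).map ι.toIntAlgHom

theorem IsWeil.root_ne [NumberField E] {ι : E →+* F} {q w : ℕ} {P : E[X]} (hP : IsWeil q w P)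
    (hq : 2 ≤ q) {γ : F} (hγ : (P.map ι).IsRoot γ) : γ ≠ 0 := by
  rintro rfl
  have h1 : P.coeff 0 = 0 := by
    rw [IsRoot.def, ← coeff_zero_eq_eval_zero, coeff_map, map_eq_zero] at hγ
    exact hγ
  obtain ⟨σ⟩ : Nonempty (E →+* ℂ) := inferInstance
  have h2 := hP.weil σ 0 (by rw [IsRoot.def, ← coeff_zero_eq_eval_zero, coeff_map, h1, map_zero])
  rw [norm_zero] at h2
  have h5 : (0 : ℝ) < (q : ℝ) ^ w := by positivity
  rw [← h2] at h5
  norm_num at h5

/-- `q ^ w / γ` is integral if `γ` is a root -/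
theorem IsWeil.dual_int [NumberField E] {ι : E →+* F} {q w : ℕ} {P : E[X]} (hP : IsWeil q w P)
    (hq : 2 ≤ q) {γ : F} (hγ : (P.map ι).IsRoot γ) : IsIntegral ℤ ((q : F) ^ w / γ) := by
  obtain ⟨σ⟩ : Nonempty (E →+* ℂ) := inferInstance
  obtain ⟨K, φ, j, h1, h2, hK⟩ := exists_emb ι σ
  have hi := hP.root_int hγ
  have hγK : γ ∈ K := hK γ hi
  have hz : (P.map σ).IsRoot (φ ⟨γ, hγK⟩) := (root_iff h1 h2 P ⟨γ, hγK⟩).2 hγ
  have habs := hP.weil σ _ hz
  have hzi : IsIntegral ℤ (φ ⟨γ, hγK⟩) := by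
    have h3 : IsIntegral ℤ (⟨γ, hγK⟩ : K) :=
      (isIntegral_algHom_iff K.subtype.toIntAlgHom K.subtype.injective (x := ⟨γ, hγK⟩)).1 hi
    exact h3.map φ.toIntAlgHom
  have hzc : IsIntegral ℤ ((starRingEnd ℂ) (φ ⟨γ, hγK⟩)) := hzi.map (starRingEnd ℂ).toIntAlgHom
  have hne : (⟨γ, hγK⟩ : K) ≠ 0 := by
    intro h
    exact hP.root_ne hq hγ (congrArg Subtype.val h)
  have hφne : φ ⟨γ, hγK⟩ ≠ 0 := (map_ne_zero φ).2 hne
  have e : φ ((q : K) ^ w / ⟨γ, hγK⟩) = (starRingEnd ℂ) (φ ⟨γ, hγK⟩) := by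
    rw [map_div₀, map_pow, map_natCast, div_eq_iff hφne, Complex.conj_mul', ← Complex.ofReal_pow,
      habs]
    push_cast
    rfl
  rw [← e] at hzc
  have h4 : IsIntegral ℤ ((q : K) ^ w / ⟨γ, hγK⟩) :=
    (isIntegral_algHom_iff φ.toIntAlgHom φ.injective (x := (q : K) ^ w / ⟨γ, hγK⟩)).1 hzc
  exact h4.map K.subtype.toIntAlgHom

end emb

end Pool.Agent.RG
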