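import Pool.Agent.helper10.RG.KEY

/-!
# Row rgb:CORE (MP_2e0e07_nt): assembly of part B
-/

set_option autoImplicit false

universe u v w

namespace Pool.Agent.RG

open Matrix Polynomial Pool.Agent.GO Pool.Agent.AR

theorem CORE_split {F : Type*} [Field F] [IsAlgClosed F] (R : Matrix (Fin 2) (Fin 2) F) :
    ∃ α β : F, R.charpoly = (X - C α) * (X - C β) ∧ R.trace = α + β ∧ R.det = α * β := by
  obtain ⟨α, hα⟩ := IsAlgClosed.exists_root R.charpoly (by
    rw [Matrix.charpoly_degree_eq_dim]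
    simp)
  rw [Matrix.charpoly_fin_two] at hα
  have h1 : α ^ 2 - R.trace * α + R.det = 0 := by
    simpa [IsRoot.def] using hα
  have h2 : R.det = α * (R.trace - α) := by linear_combination h1
  refine ⟨α, R.trace - α, ?_, by ring, h2⟩
  rw [Matrix.charpoly_fin_two, h2]
  simp only [C_mul, C_sub]
  ring

theorem CORE_coeff {F : Type*} [Field F] (R : Matrix (Fin 2) (Fin 2) F) : R.charpoly.coeff 1 = -R.trace := by
  rw [Matrix.charpoly_fin_two]
  simp [coeff_C]

theorem CORE_trace_mem {Γ F : Type*} [Field F] {m : Type*} [Fintype m] (S : Subalgebra F (Γ → F))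
    (A : Γ → Matrix m m F) (h : ∀ i j, (fun g => A g i j) ∈ S) : (fun g => (A g).trace) ∈ S := by
  have e : (fun g => (A g).trace) = ∑ i, fun g => A g i i := by
    ext g
    rw [Finset.sum_apply]
    rfl
  rw [e]
  exact Subalgebra.sum_mem _ fun i _ => h i i

theorem CORE_loc {E F : Type*} [Field E] [Field F] [IsAlgClosed F] {ι : E →+* F} {q s : ℕ}
    {Q : E[X]} {R : Matrix (Fin 2) (Fin 2) F} (hs : 1 ≤ s) (hQ : IsGood q s Q) (hR : R.charpoly = Q.map ι)
    (ht : R.trace ≠ 0) : ∃ α β : F, Loc ι q s Q α β ∧ R.charpoly = (X - C α) * (X - C β) ∧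
      R.trace = α + β ∧ R.det = α * β := by
  obtain ⟨α, β, h1, h2, h3⟩ := CORE_split R
  refine ⟨α, β, ⟨hs, hQ, by rw [← hR, h1], fun h0 => ht ?_⟩, h1, h2, h3⟩
  have h4 := CORE_coeff R
  rw [hR, coeff_map, h0, map_zero] at h4
  exact neg_eq_zero.1 h4.symm

theorem CORE (h1 : STRUCT_stmt.{u, v}) (h2 : ORD1_stmt.{w, v}) (h3 : ORD2_stmt.{w, v})
    (h4 : RAT_stmt.{w, v}) (h5 : INT_stmt.{w, v}) (h6 : KRE_stmt.{v}) (h7 : GENM_stmt.{v})
    (h8 : POL_stmt.{u, v}) (h9 : ALGN_stmt.{u, v}) : CORE_stmt.{u, v, w} := by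
  intro Γ _ F _ _ _ E _ _ ι r n V ρ s wt G hs hwt hSI had hdom hflag hZD hdata
  classical
  have hρ : ∀ i j, (fun g => ρ g i j) ∈ alg (ds (dirSum V) ρ) := fun i j =>
    alg_le_ds' (dirSum V) ρ (coef_mem ρ i j)
  have htr : (fun g => (ρ g).trace) ∈ alg (ds (dirSum V) ρ) := CORE_trace_mem _ _ hρ
  have hdet : (fun g => (ρ g).det) ∈ alg (ds (dirSum V) ρ) := by
    have e : (fun g => (ρ g).det) =
        (fun g => ρ g 0 0) * (fun g => ρ g 1 1) - (fun g => ρ g 0 1) * (fun g => ρ g 1 0) := by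
      ext g
      simp [Matrix.det_fin_two]
    rw [e]
    exact Subalgebra.sub_mem _ (Subalgebra.mul_mem _ (hρ 0 0) (hρ 1 1))
      (Subalgebra.mul_mem _ (hρ 0 1) (hρ 1 0))
  -- a suitable element of `G`
  obtain ⟨g₀, hg₀, ht₀⟩ : ∃ g₀ ∈ G, (ρ g₀).trace ≠ 0 := by
    by_contra hcon
    push Not at hcon
    have h0 := congrFun (hZD _ htr hcon) 1
    simp only [map_one, Matrix.trace_one, Pi.zero_apply] at h0
    norm_num at h0
  obtain ⟨q₀, P₀, Q₀, hQ₀, hR₀, hV₀⟩ := hdata g₀ hg₀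
  obtain ⟨α₀, β₀, hL₀, hch₀, -, -⟩ := CORE_loc hs hQ₀ hR₀ ht₀
  obtain ⟨i, a, b, V0, M, hb, hchar, hV0, hM, htrans, hend⟩ :=
    h1 Γ F r n V ρ g₀ α₀ β₀ hSI had hdom hflag hch₀ (h3 E F ι q₀ s Q₀ α₀ β₀ hL₀) (by
      intro i hi γ γ' hγ hγ'
      rw [(hV₀ i).1] at hγ hγ'
      exact h2 E F ι q₀ s (wt i) (P₀ i) Q₀ α₀ β₀ γ γ' hL₀ ((hV₀ i).2 hi) (hwt i hi) hγ hγ')
  refine ⟨i, hend ?_⟩
  have hni : 2 ≤ n i := by
    have h10 := congrArg natDegree (hchar 1)
    rw [Matrix.charpoly_natDegree_eq_dim, natDegree_mul (Matrix.charpoly_monic _).ne_zero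
      (Matrix.charpoly_monic _).ne_zero, Matrix.charpoly_natDegree_eq_dim,
      Matrix.charpoly_natDegree_eq_dim] at h10
    simp only [Fintype.card_fin, Fintype.card_prod] at h10
    omega
  obtain ⟨p, hp, hpe⟩ := h8 Γ F a b V0 M ρ
  obtain ⟨g₁, hg₁⟩ := htrans p hp
  rw [hpe] at hg₁
  have hN : (fun g => genN (V0 g) (M g) (ρ g).trace (ρ g).det) ∈ alg (ds (dirSum V) ρ) :=
    h9 Γ F _ a b (fun g => V0 g) (fun g => M g) (fun g => (ρ g).trace) (fun g => (ρ g).det) hV0 hM htr hdet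
  -- the finite set
  have hfin : {t : E | IsIntegral ℤ t ∧ ∀ σ : E →+* ℂ, ‖σ t‖ ≤ (b : ℝ)}.Finite :=
    NumberField.Embeddings.finite_of_norm_le E ℂ b
  have hkey : ∀ g ∈ G, (ρ g).trace ≠ 0 → genN (V0 g) (M g) (ρ g).trace (ρ g).det ≠ 0 →
      ∃ t ∈ hfin.toFinset, (M g).trace = ι t := by
    intro g hg hT hNg
    obtain ⟨q, P, Q, hQ, hR, hV⟩ := hdata g hg
    obtain ⟨α, β, hL, hch, htr', hdet'⟩ := CORE_loc hs hQ hR hT
    have hW := (hV i).2 hni
    obtain ⟨hα0, hβ0⟩ := KEY_ne hL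
    rw [htr', hdet'] at hNg
    obtain ⟨g1, g2, g3⟩ := h7 F a b (V0 g) (M g) α β hNg
    have hroots : ((P i).map ι).roots = (V0 g).charpoly.roots +
        (M g).charpoly.roots.map (fun μ => α * μ) + (M g).charpoly.roots.map (fun μ => β * μ) := by
      rw [← (hV i).1, hchar g, roots_mul (mul_ne_zero (Matrix.charpoly_monic _).ne_zero
        (Matrix.charpoly_monic _).ne_zero), h6 F b (ρ g) (M g) α β hch hα0 hβ0, add_assoc]
    have hne : (P i).map ι ≠ 0 := by
      rw [← (hV i).1]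
      exact (Matrix.charpoly_monic _).ne_zero
    have hord : ∀ γ ∈ ((P i).map ι).roots, ∀ γ' ∈ ((P i).map ι).roots, α ^ 2 * γ ≠ β ^ 2 * γ' :=
      fun γ hγ γ' hγ' => h2 E F ι q s (wt i) (P i) Q α β γ γ' hL hW (hwt i hni)
        ((mem_roots hne).1 hγ) ((mem_roots hne).1 hγ')
    obtain ⟨t, ht⟩ := h4 E F ι (P i) Q α β (V0 g).charpoly.roots (M g).charpoly.roots hW.monic hL.split
      hα0 hβ0 hroots hord g1 g2 g3
    have hcard : (M g).charpoly.roots.card = b := by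
      have h11 := (IsAlgClosed.splits (M g).charpoly).natDegree_eq_card_roots
      rw [← h11, Matrix.charpoly_natDegree_eq_dim, Fintype.card_fin]
    obtain ⟨hint, hbd⟩ := h5 E F ι q s (wt i) (P i) Q α β (M g).charpoly.roots t hL hW (hwt i hni)
      (fun μ hμ => by
        constructor
        · refine (mem_roots hne).1 ?_
          rw [hroots, Multiset.mem_add, Multiset.mem_add]
          exact Or.inl (Or.inr (Multiset.mem_map_of_mem _ hμ))
        · refine (mem_roots hne).1 ?_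
          rw [hroots, Multiset.mem_add]
          exact Or.inr (Multiset.mem_map_of_mem _ hμ)) ht
    refine ⟨t, ?_, ?_⟩
    · rw [Set.Finite.mem_toFinset]
      refine ⟨hint, fun σ => ?_⟩
      have := hbd σ
      rwa [hcard] at this
    · rw [ht]
      exact Matrix.trace_eq_sum_roots_charpoly _
  -- the product vanishes
  have htM : (fun g => (M g).trace) ∈ alg (ds (dirSum V) ρ) := CORE_trace_mem _ _ hM
  let fN : alg (ds (dirSum V) ρ) := ⟨_, hN⟩
  let fT : alg (ds (dirSum V) ρ) := ⟨_, htr⟩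
  let fM : alg (ds (dirSum V) ρ) := ⟨_, htM⟩
  have hprod : fN * fT * ∏ t ∈ hfin.toFinset, (fM - algebraMap F _ (ι t)) = 0 := by
    apply Subtype.ext
    refine hZD _ (fN * fT * ∏ t ∈ hfin.toFinset, (fM - algebraMap F _ (ι t))).2 fun g hg => ?_
    have e : (fN * fT * ∏ t ∈ hfin.toFinset, (fM - algebraMap F _ (ι t)) : alg (ds (dirSum V) ρ)).1 g =
        genN (V0 g) (M g) (ρ g).trace (ρ g).det * (ρ g).trace *
          ∏ t ∈ hfin.toFinset, ((M g).trace - ι t) := by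
      have e0 : ∀ f : alg (ds (dirSum V) ρ), f.1 g = evG (ds (dirSum V) ρ) g f := fun f => rfl
      rw [e0, map_mul, map_mul, map_prod]
      rfl
    rw [e]
    by_cases hN0 : genN (V0 g) (M g) (ρ g).trace (ρ g).det = 0
    · rw [hN0, zero_mul, zero_mul]
    by_cases hT0 : (ρ g).trace = 0
    · rw [hT0, mul_zero, zero_mul]
    obtain ⟨t, ht, htt⟩ := hkey g hg hT0 hN0
    rw [Finset.prod_eq_zero ht (by rw [htt, sub_self]), mul_zero]
  have hN0 : fN ≠ 0 := by
    intro h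
    exact hg₁ (congrFun (congrArg Subtype.val h) g₁)
  have hT0 : fT ≠ 0 := by
    intro h
    exact ht₀ (congrFun (congrArg Subtype.val h) g₀)
  have hdomI : IsDomain (alg (ds (dirSum V) ρ)) := by
    have : Nontrivial (alg (ds (dirSum V) ρ)) := ⟨fN, 0, hN0⟩
    exact NoZeroDivisors.to_isDomain _
  have hp0 := (mul_eq_zero.1 hprod).resolve_left (mul_ne_zero hN0 hT0)
  rw [Finset.prod_eq_zero_iff] at hp0
  obtain ⟨t, ht, ht0⟩ := hp0
  have hconst : ∀ g, (M g).trace = ι t := by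
    intro g
    have := congrFun (congrArg Subtype.val ht0) g
    exact sub_eq_zero.1 this
  intro g
  rw [hconst g, ← hconst 1, map_one, Matrix.trace_one, Fintype.card_fin]

end Pool.Agent.RG
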