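import Pool.Agent.helper10.RG.Arith

/-!
# Rows rgb:KEY, ORD1, ORD2 (MP_2e0e07_nt)
-/

set_option autoImplicit false

universe u v w

namespace Pool.Agent.RG

open Matrix Polynomial

section

variable {E F : Type*} [Field E] [Field F] {ι : E →+* F} {q s : ℕ} {Q : E[X]} {α β : F}

theorem KEY_coeff (h : IsHecke q s Q) (i : ℕ) : IsIntegral ℤ (Q.coeff i) := by
  obtain ⟨ε, m, hm, hε, hd⟩ := h.det
  have hεi : IsIntegral ℤ ε := by
    refine IsIntegral.of_pow hm ?_
    rw [hε]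
    exact isIntegral_one
  rcases Nat.lt_or_ge i 3 with hi | hi
  · interval_cases i
    · rw [hd]
      exact hεi.mul ((isIntegral_natCast q).pow s)
    · exact h.integral
    · have : Q.coeff 2 = 1 := by
        rw [← h.deg]
        exact h.monic.coeff_natDegree
      rw [this]
      exact isIntegral_one
  · rw [coeff_eq_zero_of_natDegree_lt (by rw [h.deg]; omega)]
    exact isIntegral_zero

theorem KEY_split (h : Q.map ι = (X - C α) * (X - C β)) :
    ι (Q.coeff 1) = -(α + β) ∧ ι (Q.coeff 0) = α * β := by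
  have e : (X - C α) * (X - C β) = X ^ 2 - C (α + β) * X + C (α * β) := by
    rw [C_add, C_mul]
    ring
  rw [e] at h
  constructor
  · rw [← coeff_map, h]
    simp [coeff_C]
  · rw [← coeff_map, h]
    simp

theorem KEY_root (h : Q.map ι = (X - C α) * (X - C β)) :
    (Q.map ι).IsRoot α ∧ (Q.map ι).IsRoot β := by
  rw [h]
  simp [IsRoot.def]

theorem KEY_swap (h : Loc ι q s Q α β) : Loc ι q s Q β α :=
  ⟨h.pos, h.good, by rw [h.split, mul_comm], h.ne⟩

theorem KEY_int (h : Loc ι q s Q α β) : IsIntegral ℤ α := by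
  refine int_of_coeff (P := Q.map ι) (h.good.2.1.monic.map ι) (fun i => ?_) (KEY_root h.split).1
  rw [coeff_map]
  exact (KEY_coeff h.good.2.1 i).map ι.toIntAlgHom

theorem KEY_det (h : Loc ι q s Q α β) : ∃ (ε : E) (m : ℕ), 0 < m ∧ ε ^ m = 1 ∧
    Q.coeff 0 = ε * (q : E) ^ s ∧ α * β = ι ε * (q : F) ^ s := by
  obtain ⟨ε, m, hm, hε, hd⟩ := h.good.2.1.det
  refine ⟨ε, m, hm, hε, hd, ?_⟩
  rw [← (KEY_split h.split).2, hd, map_mul, map_pow, map_natCast]

theorem KEY_unit_norm {ε : E} {m : ℕ} (hm : 0 < m) (hε : ε ^ m = 1) (σ : E →+* ℂ) : ‖σ ε‖ = 1 := by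
  have h1 : ‖σ ε‖ ^ m = 1 := by
    rw [← norm_pow, ← map_pow, hε, map_one, norm_one]
  exact (pow_eq_one_iff_of_nonneg (norm_nonneg _) hm.ne').1 h1

theorem KEY_unit_int {ε : E} {m : ℕ} (hm : 0 < m) (hε : ε ^ m = 1) : IsIntegral ℤ (ι ε) := by
  refine IsIntegral.of_pow hm ?_
  rw [← map_pow, hε, map_one]
  exact isIntegral_one

theorem KEY_unit_inv {ε : E} {m : ℕ} (hm : 0 < m) (hε : ε ^ m = 1) : IsIntegral ℤ (ι ε)⁻¹ := by
  refine IsIntegral.of_pow hm ?_
  rw [inv_pow, ← map_pow, hε, map_one, inv_one]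
  exact isIntegral_one

theorem KEY_ne [CharZero F] (h : Loc ι q s Q α β) : α ≠ 0 ∧ β ≠ 0 := by
  obtain ⟨ε, m, hm, hε, hd, hd'⟩ := KEY_det h
  have hq : (q : F) ≠ 0 := Nat.cast_ne_zero.2 (by have := h.good.1; omega)
  have hε0 : ε ≠ 0 := by
    rintro rfl
    rw [zero_pow hm.ne'] at hε
    exact zero_ne_one hε
  have : α * β ≠ 0 := by
    rw [hd']
    exact mul_ne_zero ((map_ne_zero ι).2 hε0) (pow_ne_zero _ hq)
  exact ⟨left_ne_zero_of_mul this, right_ne_zero_of_mul this⟩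

end

theorem KEY_pow {F : Type*} [Field F] {q m : ℕ} {α β : F} (hα : IsIntegral ℤ α) (hβ : IsIntegral ℤ β)
    (h1 : IsIntegral ℤ (α ^ (2 * m) / (q : F))) (h2 : IsIntegral ℤ (β ^ (2 * m) / (q : F))) :
    IsIntegral ℤ ((α + β) ^ (4 * m) / (q : F)) := by
  rw [add_pow, Finset.sum_div]
  refine IsIntegral.sum _ fun i hi => ?_
  rcases le_total (2 * m) i with h | h
  · have e : α ^ i * β ^ (4 * m - i) * ((4 * m).choose i : F) / (q : F) =
        (α ^ (2 * m) / (q : F)) * (α ^ (i - 2 * m) * β ^ (4 * m - i) * ((4 * m).choose i : F)) := by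
      rw [← Nat.sub_add_cancel h, pow_add, Nat.add_sub_cancel]
      ring
    rw [e]
    exact h1.mul (((hα.pow _).mul (hβ.pow _)).mul (isIntegral_natCast _))
  · have h' : 2 * m ≤ 4 * m - i := by omega
    have e : α ^ i * β ^ (4 * m - i) * ((4 * m).choose i : F) / (q : F) =
        (β ^ (2 * m) / (q : F)) * (α ^ i * β ^ (4 * m - i - 2 * m) * ((4 * m).choose i : F)) := by
      have e1 : β ^ (4 * m - i) = β ^ (4 * m - i - 2 * m) * β ^ (2 * m) := by
        rw [← pow_add, Nat.sub_add_cancel h']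
      rw [e1]
      ring
    rw [e]
    exact h2.mul (((hα.pow _).mul (hβ.pow _)).mul (isIntegral_natCast _))

theorem KEY (h1 : INTQ_stmt.{u}) : KEY_stmt.{u, v} := by
  intro E _ _ F _ _ _ ι q s Q α β m h hm hα hβ hφ
  obtain ⟨hU, hsmall, hnot⟩ := h1 E q
  have hq2 := h.good.1
  obtain ⟨hs1, hs0⟩ := KEY_split h.split
  have hiα := KEY_int h
  have hiβ := KEY_int (KEY_swap h)
  have hpow : IsIntegral ℤ ((Q.coeff 1) ^ (4 * m) / (q : E)) := by
    have h2 := KEY_pow hiα hiβ hα hβ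
    have e : (α + β) ^ (4 * m) / (q : F) = ι ((Q.coeff 1) ^ (4 * m) / (q : E)) := by
      rw [map_div₀, map_pow, map_natCast, hs1, neg_pow, show 4 * m = 2 * (2 * m) by ring, pow_mul (-1 : F)]
      norm_num
    rw [e] at h2
    exact (isIntegral_algHom_iff ι.toIntAlgHom ι.injective (x := (Q.coeff 1) ^ (4 * m) / (q : E))).1 h2
  have hc := h.good.2.1.integral
  rcases h.good.2.2 with ⟨x, y, hx, hy, hxy⟩ | ⟨hs, hun⟩
  · -- ordinary
    refine hnot hq2 ?_
    have hq0 : (q : E) ≠ 0 := Nat.cast_ne_zero.2 (by omega)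
    have e1 : (1 : E) / (q : E) = (x * Q.coeff 1 + y * (q : E)) ^ (4 * m) / (q : E) := by
      rw [hxy, one_pow]
    rw [e1, add_pow, Finset.sum_div]
    refine IsIntegral.sum _ fun i hi => ?_
    rw [Finset.mem_range] at hi
    rcases Nat.lt_or_ge i (4 * m) with h | h
    · have h' : 1 ≤ 4 * m - i := by omega
      have e : (x * Q.coeff 1) ^ i * (y * (q : E)) ^ (4 * m - i) * ((4 * m).choose i : E) / (q : E) =
          (x * Q.coeff 1) ^ i * (y * (y * (q : E)) ^ (4 * m - i - 1)) * ((4 * m).choose i : E) := by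
        have e2 : (y * (q : E)) ^ (4 * m - i) = (y * (q : E)) ^ (4 * m - i - 1) * (y * (q : E)) := by
          rw [← pow_succ, Nat.sub_add_cancel h']
        rw [e2]
        field_simp
      rw [e]
      exact (((hx.mul hc).pow _).mul (hy.mul ((hy.mul (isIntegral_natCast q)).pow _))).mul
        (isIntegral_natCast _)
    · have hi' : i = 4 * m := by omega
      subst hi'
      have e : (x * Q.coeff 1) ^ (4 * m) * (y * (q : E)) ^ (4 * m - 4 * m) * ((4 * m).choose (4 * m) : E) / (q : E) =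
          x ^ (4 * m) * ((Q.coeff 1) ^ (4 * m) / (q : E)) := by
        rw [Nat.sub_self, pow_zero, Nat.choose_self, mul_pow]
        push_cast
        ring
      rw [e]
      exact (hx.pow _).mul hpow
  · -- unramified
    have h3 := hU hun (Q.coeff 1) (4 * m) (by omega) hc hpow
    refine h.ne (hsmall hq2 _ h3 fun σ => ?_)
    obtain ⟨K, φ, j, hj1, hj2, hK⟩ := exists_emb ι σ
    have hαK := hK α hiα
    have hβK := hK β hiβ
    have hφ1 := hφ K hK φ hαK hβK
    obtain ⟨ε, k, hk, hε, hd, hd'⟩ := KEY_det h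
    have hsum : φ ⟨α, hαK⟩ + φ ⟨β, hβK⟩ = - σ (Q.coeff 1) := by
      rw [← map_add, ← hj2, RingHom.comp_apply, ← map_neg]
      congr 1
      apply Subtype.ext
      have := congrArg (fun f : E →+* F => f (Q.coeff 1)) hj1
      simp only [RingHom.comp_apply] at this
      show α + β = -((j (Q.coeff 1) : K) : F)
      have h5 : ((j (Q.coeff 1) : K) : F) = ι (Q.coeff 1) := this
      rw [h5, hs1, neg_neg]
    have hprod : φ ⟨α, hαK⟩ * φ ⟨β, hβK⟩ = σ (Q.coeff 0) := by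
      rw [← map_mul, ← hj2, RingHom.comp_apply]
      congr 1
      apply Subtype.ext
      have := congrArg (fun f : E →+* F => f (Q.coeff 0)) hj1
      simp only [RingHom.comp_apply] at this
      show α * β = ((j (Q.coeff 0) : K) : F)
      have h5 : ((j (Q.coeff 0) : K) : F) = ι (Q.coeff 0) := this
      rw [h5, hs0]
    have hn1 : ‖φ ⟨α, hαK⟩‖ ^ 2 = q := by
      have h6 := congrArg norm hprod
      rw [norm_mul, ← hφ1, hd, map_mul, norm_mul, KEY_unit_norm hk hε σ, hs, pow_one, map_natCast, one_mul] at h6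
      rw [pow_two, h6]
      simp
    have hn2 : ‖σ (Q.coeff 1)‖ ≤ 2 * ‖φ ⟨α, hαK⟩‖ := by
      rw [← norm_neg, ← hsum]
      refine (norm_add_le _ _).trans ?_
      rw [← hφ1]
      linarith
    have hq5 : (5 : ℝ) ≤ q := by exact_mod_cast hun.1
    have hn3 : 0 ≤ ‖φ ⟨α, hαK⟩‖ := norm_nonneg _
    nlinarith

theorem ORD_emb {E F : Type*} [Field E] [NumberField E] [Field F] (ι : E →+* F) {K : Subfield F}
    (hK : ∀ x : F, IsIntegral ℤ x → x ∈ K) : ∃ j : E →+* K, K.subtype.comp j = ι := by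
  have h1 : ∀ e : E, ι e ∈ K := by
    intro e
    obtain ⟨a, b, hb, hab⟩ := IsFractionRing.div_surjective (A := NumberField.RingOfIntegers E) e
    rw [← hab, map_div₀]
    exact K.div_mem (hK _ ((NumberField.RingOfIntegers.isIntegral_coe a).map ι.toIntAlgHom))
      (hK _ ((NumberField.RingOfIntegers.isIntegral_coe b).map ι.toIntAlgHom))
  exact ⟨ι.codRestrict K.toSubring h1, RingHom.ext fun x => rfl⟩

theorem ORD_norm {E F : Type*} [Field E] [NumberField E] [Field F] (ι : E →+* F) {P : E[X]} {q w : ℕ}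
    (hP : IsWeil q w P) {γ : F} (hγ : (P.map ι).IsRoot γ) {K : Subfield F} (φ : K →+* ℂ)
    (hK : ∀ x : F, IsIntegral ℤ x → x ∈ K) (hγK : γ ∈ K) :
    ‖φ ⟨γ, hγK⟩‖ ^ 2 = (q : ℝ) ^ w := by
  obtain ⟨j, hj⟩ := ORD_emb ι hK
  exact hP.weil (φ.comp j) _ ((root_iff hj rfl P ⟨γ, hγK⟩).2 hγ)

theorem ORD1_int {E F : Type*} [Field E] [NumberField E] [Field F] [CharZero F] {ι : E →+* F}
    {q s w : ℕ} {P Q : E[X]} {α β γ γ' : F} (h : Loc ι q s Q α β) (hP : IsWeil q w P) (hw : w ≤ s)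
    (hγ : (P.map ι).IsRoot γ) (hγ' : (P.map ι).IsRoot γ') (he : α ^ 2 * γ = β ^ 2 * γ') :
    IsIntegral ℤ (α ^ (2 * 2) / (q : F)) := by
  obtain ⟨ε, m, hm, hε, hd, hd'⟩ := KEY_det h
  have hq : (q : F) ≠ 0 := Nat.cast_ne_zero.2 (by have := h.good.1; omega)
  have hγ0 := hP.root_ne h.good.1 hγ
  have hs := h.pos
  have e : α ^ (2 * 2) / (q : F) =
      (ι ε) ^ 2 * (q : F) ^ (2 * s - w - 1) * γ' * ((q : F) ^ w / γ) := by
    have e1 : α ^ (2 * 2) * γ = (ι ε * (q : F) ^ s) ^ 2 * γ' := by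
      rw [← hd']
      linear_combination α ^ 2 * he
    have e2 : (ι ε * (q : F) ^ s) ^ 2 = (ι ε) ^ 2 * ((q : F) ^ (2 * s - w - 1) * (q : F) ^ w * (q : F)) := by
      rw [mul_pow, ← pow_mul, ← pow_add, ← pow_succ]
      congr 2
      omega
    rw [e2] at e1
    field_simp
    linear_combination e1
  rw [e]
  exact ((((KEY_unit_int hm hε).pow 2).mul ((isIntegral_natCast q).pow _)).mul (hP.root_int hγ')).mul
    (hP.dual_int h.good.1 hγ)

theorem ORD1 (h1 : KEY_stmt.{u, v}) : ORD1_stmt.{u, v} := by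
  intro E _ _ F _ _ _ ι q s w P Q α β γ γ' h hP hw hγ hγ' he
  refine h1 E F ι q s Q α β 2 h (by norm_num) (ORD1_int h hP hw hγ hγ' he)
    (ORD1_int (KEY_swap h) hP hw hγ' hγ he.symm) ?_
  intro K hK φ hαK hβK
  have hγK := hK γ (hP.root_int hγ)
  have hγK' := hK γ' (hP.root_int hγ')
  have n1 := ORD_norm ι hP hγ φ hK hγK
  have n2 := ORD_norm ι hP hγ' φ hK hγK'
  have e : φ ⟨α, hαK⟩ ^ 2 * φ ⟨γ, hγK⟩ = φ ⟨β, hβK⟩ ^ 2 * φ ⟨γ', hγK'⟩ := by
    rw [← map_pow, ← map_pow, ← map_mul, ← map_mul]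
    congr 1
    exact Subtype.ext he
  have e2 : (‖φ ⟨α, hαK⟩‖ ^ 2) ^ 2 * ‖φ ⟨γ, hγK⟩‖ ^ 2 = (‖φ ⟨β, hβK⟩‖ ^ 2) ^ 2 * ‖φ ⟨γ', hγK'⟩‖ ^ 2 := by
    have := congrArg norm e
    rw [norm_mul, norm_mul, norm_pow, norm_pow] at this
    rw [← mul_pow, ← mul_pow, this]
  rw [n1, n2] at e2
  have hq : (0 : ℝ) < (q : ℝ) ^ w := by
    have : 0 < q := by have := h.good.1; omega
    positivity
  have e3 := mul_right_cancel₀ hq.ne' e2
  have e4 := (pow_left_inj₀ (by positivity) (by positivity) (by norm_num)).1 e3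
  exact (pow_left_inj₀ (norm_nonneg _) (norm_nonneg _) (by norm_num)).1 e4

theorem ORD2 (h1 : KEY_stmt.{u, v}) : ORD2_stmt.{u, v} := by
  intro E _ _ F _ _ _ ι q s Q α β h k hk he
  obtain ⟨ε, m, hm, hε, hd, hd'⟩ := KEY_det h
  have hq : (q : F) ≠ 0 := Nat.cast_ne_zero.2 (by have := h.good.1; omega)
  have hsk : 1 ≤ s * k := Nat.mul_pos h.pos hk
  have e0 : (α * β) ^ k / (q : F) = (ι ε) ^ k * (q : F) ^ (s * k - 1) := by
    rw [hd', mul_pow, ← pow_mul]
    have : (q : F) ^ (s * k) = (q : F) ^ (s * k - 1) * (q : F) := by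
      rw [← pow_succ, Nat.sub_add_cancel hsk]
    rw [this]
    field_simp
  have hi : IsIntegral ℤ ((α * β) ^ k / (q : F)) := by
    rw [e0]
    exact ((KEY_unit_int hm hε).pow k).mul ((isIntegral_natCast q).pow _)
  refine h1 E F ι q s Q α β k h hk ?_ ?_ ?_
  · have : α ^ (2 * k) = (α * β) ^ k := by
      rw [mul_pow, ← he, two_mul, pow_add]
    rw [this]
    exact hi
  · have : β ^ (2 * k) = (α * β) ^ k := by
      rw [mul_pow, he, two_mul, pow_add]
    rw [this]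
    exact hi
  · intro K hK φ hαK hβK
    have e : φ ⟨α, hαK⟩ ^ k = φ ⟨β, hβK⟩ ^ k := by
      rw [← map_pow, ← map_pow]
      congr 1
      exact Subtype.ext he
    have e2 := congrArg norm e
    rw [norm_pow, norm_pow] at e2
    exact (pow_left_inj₀ (norm_nonneg _) (norm_nonneg _) hk.ne').1 e2

end Pool.Agent.RG
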